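import Pool.Agent.Helper14.GS.StD

/-!
# Project GS: module D1 (integrality of the Taylor coefficients of the binomial polynomials)
-/

namespace Pool.Agent.Helper80.GS

open Pool.Agent.Helper14.GS Pool.Agent.Helper10.EP Polynomial Finset

/-- the real polynomials `g` with `g(dX)` integral -/
noncomputable def good (d : ℕ) : Subring ℝ[X] :=
  ((mapRingHom (Int.castRingHom ℝ)).range).comap (compRingHom (C (d : ℝ) * X))

theorem mem_good {d : ℕ} {g : ℝ[X]} :
    g ∈ good d ↔ ∃ G : ℤ[X], G.map (Int.castRingHom ℝ) = g.comp (C (d : ℝ) * X) := by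
  unfold good
  rw [Subring.mem_comap, RingHom.mem_range]
  rfl

theorem good_lin {d i : ℕ} (hi : 1 ≤ i) (hid : i ∣ d) : C (((i : ℝ))⁻¹) * X ∈ good d := by
  rw [mem_good]
  obtain ⟨e, he⟩ := hid
  refine ⟨C (e : ℤ) * X, ?_⟩
  have hi0 : (i : ℝ) ≠ 0 := by positivity
  rw [mul_comp, C_comp, X_comp, ← mul_assoc, ← C_mul, Polynomial.map_mul, map_C, map_X]
  congr 2
  rw [he]
  push_cast
  rw [← mul_assoc, inv_mul_cancel₀ hi0, one_mul]
  rfl

theorem binP_eval (j : ℕ) (x : ℝ) : (binP j).eval x = ∏ i ∈ range j, (((i : ℝ) + 1)⁻¹ * (x - i)) := by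
  unfold binP
  rw [eval_prod]
  apply prod_congr rfl
  intro i _
  rw [eval_mul, eval_C, eval_sub, eval_X, eval_C]

theorem pascal_eval (j : ℕ) (x : ℝ) :
    (∏ i ∈ range (j + 1), (((i : ℝ) + 1)⁻¹ * (x + 1 - i))) =
      (∏ i ∈ range (j + 1), (((i : ℝ) + 1)⁻¹ * (x - i))) + ∏ i ∈ range j, (((i : ℝ) + 1)⁻¹ * (x - i)) := by
  induction j with
  | zero => simp
  | succ j ih =>
    rw [prod_range_succ, ih, prod_range_succ _ (j + 1), prod_range_succ _ j]
    have h1 : ((j : ℝ) + 1) ≠ 0 := by positivity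
    have h2 : ((j : ℝ) + 1 + 1) ≠ 0 := by positivity
    push_cast
    field_simp
    ring

theorem pascal (j : ℕ) : (binP (j + 1)).comp (X + C 1) = binP (j + 1) + binP j := by
  apply Polynomial.funext
  intro x
  rw [eval_comp, eval_add, eval_add, eval_X, eval_C, binP_eval, binP_eval, binP_eval]
  exact pascal_eval j x

theorem binP_form (j : ℕ) :
    binP (j + 1) = (C (((j + 1 : ℕ) : ℝ)⁻¹) * X) * ∏ i ∈ range j, (C (((i + 1 : ℕ) : ℝ)⁻¹) * X - 1) := by
  unfold binP
  rw [prod_mul_distrib, prod_range_succ, prod_range_succ' (fun i : ℕ => (X - C (i : ℝ) : ℝ[X]))]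
  have h : ∀ i : ℕ, (C (((i + 1 : ℕ) : ℝ)⁻¹) * X - 1 : ℝ[X]) =
      C (((i : ℝ) + 1)⁻¹) * (X - C ((i + 1 : ℕ) : ℝ)) := by
    intro i
    have h0 : ((i : ℝ) + 1) ≠ 0 := by positivity
    rw [mul_sub, ← C_mul]
    push_cast
    rw [inv_mul_cancel₀ h0, C_1]
  simp_rw [h]
  rw [prod_mul_distrib]
  push_cast
  simp only [map_zero, sub_zero]
  ring

theorem binP_good {h d : ℕ} (hd : ∀ i : ℕ, 1 ≤ i → i ≤ h → i ∣ d) : ∀ j : ℕ, j ≤ h → binP j ∈ good d := by
  intro j hj
  rcases j with _ | j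
  · have : binP 0 = 1 := by simp [binP]
    rw [this]
    exact Subring.one_mem _
  · rw [binP_form]
    refine Subring.mul_mem _ (good_lin (by omega) (hd _ (by omega) hj)) ?_
    refine Subring.prod_mem _ fun i hi => ?_
    have hi' := mem_range.1 hi
    exact Subring.sub_mem _ (good_lin (by omega) (hd _ (by omega) (by omega))) (Subring.one_mem _)

theorem binP_shift {h d : ℕ} (hd : ∀ i : ℕ, 1 ≤ i → i ≤ h → i ∣ d) (s : ℕ) :
    ∀ j : ℕ, j ≤ h → (binP j).comp (X + C (s : ℝ)) ∈ good d := by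
  induction s with
  | zero =>
    intro j hj
    have : (X + C ((0 : ℕ) : ℝ) : ℝ[X]) = X := by simp
    rw [this, comp_X]
    exact binP_good hd j hj
  | succ s ih =>
    intro j hj
    rcases j with _ | j
    · have : binP 0 = 1 := by simp [binP]
      rw [this, one_comp]
      exact Subring.one_mem _
    · have hX : (X + C ((s + 1 : ℕ) : ℝ) : ℝ[X]) = (X + C 1 : ℝ[X]).comp (X + C (s : ℝ)) := by
        rw [add_comp, X_comp, C_comp]
        push_cast
        rw [C_add, add_assoc]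
      rw [hX, ← comp_assoc, pascal, add_comp]
      exact Subring.add_mem _ (ih _ hj) (ih _ (by omega))

theorem D1 : StD1 := by
  intro h r d s t hh hd1 hd
  have hgood : (felP h r).comp (X + C (s : ℝ)) ∈ good d := by
    unfold felP
    rw [mul_comp, pow_comp]
    exact Subring.mul_mem _ (Subring.pow_mem _ (binP_shift hd s h le_rfl) _)
      (binP_shift hd s _ (Nat.mod_lt _ (by omega)).le)
  obtain ⟨G, hG⟩ := mem_good.1 hgood
  refine ⟨G.coeff t, ?_⟩
  rw [← taylor_coeff, taylor_apply]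
  have h1 := congrArg (fun p : ℝ[X] => p.coeff t) hG
  simp only [coeff_map, comp_C_mul_X_coeff] at h1
  rw [mul_comm, ← h1]
  rfl

end Pool.Agent.Helper80.GS
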