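import Pool.Agent.Helper79.GS.St1

/-!
# Project GS (MP_c2d095_lc), module BEH: the player who is behind and to move wins iff `XIN`
-/

set_option autoImplicit false

namespace Pool.Agent.Helper80.GS

open Pool.Agent.Helper19.SK Pool.Agent.Helper79.GS

/-- Unfolding of `MW`. -/
private lemma mw_iff {P : Type} [Finite P] (A : Arena P) (H : Set P) (ps c : Bool) (b : P) :
    MW A H ps c b ↔ ((ps = true ∧ ahead A c b) ∨ (ps = false ∧ ¬ MW A H true (!c) b) ∨
      ∃ b', A.mv c b b' ∧ b' ∉ H ∧ ¬ MW A (insert b' H) false (!c) b') := by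
  rw [MW]
  simp only [exists_prop]

private lemma ahead_not {P : Type} (A : Arena P) (c : Bool) (u : P) : ahead A (!c) u ↔ ¬ ahead A c u := by
  cases c <;> simp [ahead]

private lemma xin_iff {P : Type} (A : Arena P) (EX : Bool → P → Prop) (V : Set P) (c : Bool) (u : P) :
    XIN A EX V c u ↔ (EX c u ∨ Ess (Gr A EX V c (Xk A EX V c (mg A c u / 4)) u) u) := Iff.rfl

private lemma ncard_lt_aux {P : Type} [Finite P] (H : Set P) (v w : P) (hv : v ∉ H) :
    ((insert w (insert v H))ᶜ).ncard < (Hᶜ).ncard := by
  refine Set.ncard_lt_ncard ?_ (Set.toFinite _)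
  refine ⟨fun x hx hxH => hx (Or.inr (Or.inr hxH)), fun hcon => ?_⟩
  exact hcon (show v ∈ Hᶜ from hv) (Or.inr (Or.inl rfl))

/-- Module BEH. -/
theorem hBEH (hLVL : StLVL) (hXLC : StXLC) (hGEO : StGEO) (hGRD : StGRD) : StBEH := by
  intro P _ A hS EX Cm H₁ hCl hEX c
  -- agreement is preserved by the insertion of elements of the component
  have hag : ∀ (H : Set P) (v : P), v ∈ Cm → (∀ x, x ∉ Cm → (x ∈ H ↔ x ∈ H₁)) →
      (∀ x, x ∉ Cm → (x ∈ insert v H ↔ x ∈ H₁)) := by
    intro H v hv hH x hx
    rw [Set.mem_insert_iff, ← hH x hx]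
    constructor
    · rintro (h | h)
      · exact absurd (h ▸ hv) hx
      · exact h
    · exact Or.inr
  have main : ∀ k : ℕ, ∀ n : ℕ, ∀ (u : P) (H : Set P) (ps : Bool), mg A c u / 4 = k → (Hᶜ).ncard = n →
      u ∈ Cm → u ∈ H → (∀ x, x ∉ Cm → (x ∈ H ↔ x ∈ H₁)) → ¬ ahead A c u →
      (MW A H ps c u ↔ XIN A EX H c u) := by
    intro k
    induction k using Nat.strong_induction_on with
    | _ k ihk =>
    intro n
    induction n using Nat.strong_induction_on with
    | _ n ihn =>
    intro u H ps hk hn huC huH hH hau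
    -- the graph
    set E : P → P → Prop := Gr A EX H c (Xk A EX H c k) u with hE
    have hxin : XIN A EX H c u ↔ (EX c u ∨ Ess E u) := by
      rw [xin_iff, hk]
    -- the value at a board `v` after a reversible placement, the player behind
    have hXv : ∀ v, rv A c u v → ¬ ahead A c v → (Xk A EX H c k v ↔ XIN A EX H c v) := by
      intro v hv hav
      have h1 := (hLVL P A hS c u v hv).1 hau hav
      unfold XIN
      rw [h1, hk]
    -- the induction hypothesis for the margin
    have hV : ∀ v, rv A c u v → v ∈ Cm → ¬ ahead A c v →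
        ∀ ps', (MW A (insert v H) ps' c v ↔ XIN A EX H c v) := by
      intro v hv hvC hav ps'
      have h1 := (hLVL P A hS c u v hv).1 hau hav
      have h2 : mg A c v / 4 < k := by omega
      rw [ihk _ h2 _ v (insert v H) ps' rfl rfl hvC (Set.mem_insert _ _) (hag H v hvC hH) hav]
      refine hXLC P A hS EX (insert v H) H c v hav ?_
      intro x hx _
      rw [Set.mem_insert_iff]
      exact ⟨fun h => h.resolve_left hx, Or.inr⟩
    -- the induction hypothesis for the history
    have hW : ∀ v w, rv A c u v → v ∈ Cm → v ∉ H → (¬ ahead A c v → XIN A EX H c v) → w ∈ Cm → w ∉ H →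
        rv A c w v → A.s w = A.s u → ∀ ps',
        (MW A (insert w (insert v H)) ps' c w ↔ (EX c w ∨ Ess (del2 E u v) w)) := by
      intro v w hv hvC hvH hvX hwC hwH hwv hsw ps'
      obtain ⟨haw, hmw⟩ := (hLVL P A hS c u v hv).2.2.2.2.2.2.1 w hau hsw
      have h2 : ((insert w (insert v H))ᶜ).ncard < n := by
        rw [← hn]; exact ncard_lt_aux H v w hvH
      rw [ihn _ h2 w (insert w (insert v H)) ps' (by rw [hmw]; exact hk) rfl hwC (Set.mem_insert _ _)
        (hag _ w hwC (hag H v hvC hH)) haw, xin_iff, hmw, hk]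
      by_cases hEw : EX c w
      · exact ⟨fun _ => Or.inl hEw, fun _ => Or.inl hEw⟩
      · rw [hGRD P A hS EX H c u v w hau huH hv hvH hvX hwH hEw hwv k hk.symm]
    rw [hxin]
    constructor
    · -- if the player wins
      intro hM
      by_contra hcon
      rw [not_or] at hcon
      obtain ⟨hEu, hEs⟩ := hcon
      rw [mw_iff] at hM
      rcases hM with ⟨_, h⟩ | ⟨_, h⟩ | ⟨v, hmv, hvH, hM⟩
      · exact hau h
      · apply h
        rw [mw_iff]
        exact Or.inl ⟨rfl, (ahead_not A c u).2 hau⟩
      · by_cases hrev : A.mv (!c) v u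
        · have hv : rv A c u v := ⟨hmv, hrev⟩
          have hvC : v ∈ Cm := hCl c u v huC hv
          apply hM
          by_cases hEv : EX (!c) v
          · obtain ⟨b'', h1, h2, h3, h4⟩ := (hEX (!c) v hvC (insert v H) (hag H v hvC hH)).2 hEv
            rw [mw_iff]
            exact Or.inr (Or.inr ⟨b'', h1, h3, h4⟩)
          · by_cases hcase : ¬ ahead A c v → XIN A EX H c v
            · have hEuv : E u v := by
                refine ⟨Or.inl rfl, rfl, hv, hvH, hEv, fun hav => ?_⟩
                exact (hXv v hv hav).2 (hcase hav)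
              obtain ⟨w, hwu, hEwv, hEss⟩ := (hGEO P E u).2 hEs v hEuv
              obtain ⟨h1, hsw, hwv, _, _, _⟩ := hEwv
              obtain ⟨hwH, hEw⟩ := h1.resolve_left hwu
              have hwC : w ∈ Cm := hCl (!c) v w hvC ⟨hwv.2, by rw [Bool.not_not]; exact hwv.1⟩
              have hwv' : w ≠ v := (hLVL P A hS c w v hwv).2.2.2.1
              rw [mw_iff]
              refine Or.inr (Or.inr ⟨w, hwv.2, ?_, ?_⟩)
              · rw [Set.mem_insert_iff, not_or]
                exact ⟨hwv', hwH⟩
              · rw [Bool.not_not, hW v w hv hvC hvH hcase hwC hwH hwv hsw false, not_or]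
                exact ⟨hEw, hEss⟩
            · rw [Classical.not_imp] at hcase
              obtain ⟨hav, hX⟩ := hcase
              rw [mw_iff]
              refine Or.inr (Or.inl ⟨rfl, ?_⟩)
              rw [Bool.not_not, hV v hv hvC hav true]
              exact hX
        · exact hEu ((hEX c u huC H hH).1 ⟨v, hmv, hrev, hvH, hM⟩)
    · rintro hX
      by_cases hEu : EX c u
      · obtain ⟨b', h1, h2, h3, h4⟩ := (hEX c u huC H hH).2 hEu
        rw [mw_iff]
        exact Or.inr (Or.inr ⟨b', h1, h3, h4⟩)
      · have hEs : Ess E u := hX.resolve_left hEu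
        obtain ⟨v, hEuv, hall⟩ := (hGEO P E u).1 hEs
        obtain ⟨_, _, hv, hvH, hEv, hvX⟩ := hEuv
        have hvC : v ∈ Cm := hCl c u v huC hv
        have hvX' : ¬ ahead A c v → XIN A EX H c v := fun hav => (hXv v hv hav).1 (hvX hav)
        rw [mw_iff]
        refine Or.inr (Or.inr ⟨v, hv.1, hvH, ?_⟩)
        rw [mw_iff]
        rintro (⟨h, _⟩ | ⟨_, h⟩ | ⟨w, hmw, hwH, hM⟩)
        · exact absurd h (by decide)
        · apply h
          rw [Bool.not_not]
          by_cases hav : ahead A c v
          · rw [mw_iff]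
            exact Or.inl ⟨rfl, hav⟩
          · exact (hV v hv hvC hav true).2 (hvX' hav)
        · by_cases hrev : A.mv (!(!c)) w v
          · have hwv : rv A c w v := ⟨by rw [Bool.not_not] at hrev; exact hrev, hmw⟩
            have hwC : w ∈ Cm := hCl (!c) v w hvC ⟨hmw, hrev⟩
            have hsw : A.s w = A.s u := (hLVL P A hS c u v hv).2.2.2.2.2.1 w hwv
            rw [Set.mem_insert_iff, not_or] at hwH
            obtain ⟨hwv', hwH⟩ := hwH
            apply hM
            rw [Bool.not_not, hW v w hv hvC hvH hvX' hwC hwH hwv hsw false]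
            by_cases hEw : EX c w
            · exact Or.inl hEw
            · refine Or.inr (hall w ?_ ?_)
              · rintro rfl
                exact hwH huH
              · exact ⟨Or.inr ⟨hwH, hEw⟩, hsw, hwv, hvH, hEv, hvX⟩
          · exact hEv ((hEX (!c) v hvC (insert v H) (hag H v hvC hH)).1 ⟨w, hmw, hrev, hwH, hM⟩)
  intro u H ps huC huH hH hau
  exact main _ _ u H ps rfl rfl huC huH hH hau

end Pool.Agent.Helper80.GS
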